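import Mathlib

/-!
# Functions on a coset of a normal subgroup (project BOUNDED POLES, block B1)

`T` is normal in the finite group `G`, `f` a function on the coset `x T` which is invariant under conjugation
by `T` and under `c ↦ c y`, `y ∈ R`, for every solvable subgroup `R` of `T` which is normalised by `c`.
Then `f` is constant.
-/

set_option autoImplicit false

open Subgroup

namespace Pool.Agent.Helper64.BP

universe u v

/-- `f` is invariant under the two kinds of steps on the coset `x T`. -/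
structure Inv {G : Type u} [Group G] (T : Subgroup G) (x : G) {α : Type v} (f : G → α) : Prop where
  conj : ∀ c, x⁻¹ * c ∈ T → ∀ t ∈ T, f (t * c * t⁻¹) = f c
  step : ∀ c, x⁻¹ * c ∈ T → ∀ R : Subgroup G, R ≤ T → Group.IsSolvable R → (∀ r ∈ R, c * r * c⁻¹ ∈ R) →
    ∀ y ∈ R, f (c * y) = f c

section general

variable {G : Type u} [Group G] [Finite G]

/-- In a finite group, stability under conjugation in one direction is enough. -/
theorem mem_norm {P : Subgroup G} {c : G} (hc : ∀ r ∈ P, c * r * c⁻¹ ∈ P) :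
    c ∈ normalizer (P : Set G) := by
  rw [mem_normalizer_iff]
  intro h
  refine ⟨fun hh => hc h hh, fun hh => ?_⟩
  have hinj : Function.Injective (fun r : P => (⟨c * r * c⁻¹, hc r r.2⟩ : P)) := by
    intro a b hab
    have : c * (a : G) * c⁻¹ = c * b * c⁻¹ := congrArg Subtype.val hab
    apply Subtype.ext
    simpa using this
  obtain ⟨r, hr⟩ := Finite.surjective_of_injective hinj ⟨c * h * c⁻¹, hh⟩
  have h2 : c * (r : G) * c⁻¹ = c * h * c⁻¹ := congrArg Subtype.val hr
  have h3 : (r : G) = h := by simpa using h2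
  rw [← h3]
  exact r.2

theorem norm_mem {P : Subgroup G} {c : G} (hc : c ∈ normalizer (P : Set G)) {r : G} (hr : r ∈ P) :
    c * r * c⁻¹ ∈ P := (mem_normalizer_iff.1 hc r).1 hr

/-- A Sylow subgroup of a subgroup normalised by `c`. -/
theorem frat {p : ℕ} [Fact p.Prime] {K : Subgroup G} (S : Sylow p K) (c : G)
    (hc : ∀ k ∈ K, c * k * c⁻¹ ∈ K) :
    ∃ n ∈ K, ∀ s ∈ (S : Subgroup K).map K.subtype, (n * c) * s * (n * c)⁻¹ ∈
      (S : Subgroup K).map K.subtype := by
  classical
  let e : K →* K :=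
    { toFun := fun k => ⟨c * k * c⁻¹, hc k k.2⟩
      map_one' := Subtype.ext (by simp)
      map_mul' := fun a b => Subtype.ext (by simp [mul_assoc]) }
  have he : Function.Injective e := by
    intro a b hab
    have h1 : c * (a : G) * c⁻¹ = c * b * c⁻¹ := congrArg Subtype.val hab
    apply Subtype.ext
    simpa using h1
  have hcard : Nat.card ((S : Subgroup K).map e) = p ^ (Nat.card K).factorization p := by
    rw [← S.card_eq_multiplicity]
    exact (Nat.card_congr ((S : Subgroup K).equivMapOfInjective e he).toEquiv).symm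
  obtain ⟨n, hn⟩ := MulAction.exists_smul_eq K (Sylow.ofCard ((S : Subgroup K).map e) hcard) S
  refine ⟨n, n.2, ?_⟩
  rintro _ ⟨s, hs, rfl⟩
  have h1 : (n * e s * n⁻¹ : K) ∈ (S : Subgroup K) := by
    have h2 : ((n • Sylow.ofCard ((S : Subgroup K).map e) hcard : Sylow p K) : Subgroup K) = S := by
      rw [hn]
    rw [← h2, Sylow.coe_subgroup_smul, Sylow.coe_ofCard]
    have h3 : (n * e s * n⁻¹ : K) = MulAut.conj n • e s := by
      simp [MulAut.smul_def, MulAut.conj_apply]
    rw [h3, Subgroup.smul_mem_pointwise_smul_iff]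
    exact ⟨s, hs, rfl⟩
  refine ⟨n * e s * n⁻¹, h1, ?_⟩
  show (n : G) * (c * s * c⁻¹) * (n : G)⁻¹ = _
  simp only [subtype_apply]
  group

/-- A `p`-group acting freely by conjugation on a set. -/
theorem free_dvd (P : Subgroup G) (A : Set G) (h1 : ∀ s ∈ P, ∀ c ∈ A, s * c * s⁻¹ ∈ A)
    (h2 : ∀ s ∈ P, ∀ c ∈ A, s * c * s⁻¹ = c → s = 1) : Nat.card P ∣ Nat.card A := by
  classical
  let _ : MulAction P A :=
    { smul := fun s c => ⟨s * c * (s : G)⁻¹, h1 s s.2 c c.2⟩
      one_smul := fun c => Subtype.ext (by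
        show ((1 : P) : G) * c * ((1 : P) : G)⁻¹ = c
        simp)
      mul_smul := fun s t c => Subtype.ext (by
        show ((s * t : P) : G) * c * ((s * t : P) : G)⁻¹ = s * (t * c * (t : G)⁻¹) * (s : G)⁻¹
        simp [mul_assoc]) }
  have hstab : ∀ c : A, MulAction.stabilizer P c = ⊥ := by
    intro c
    rw [eq_bot_iff]
    intro s hs
    rw [Subgroup.mem_bot]
    have h3 : s • c = c := hs
    have h4 : (s : G) * c * (s : G)⁻¹ = c := congrArg Subtype.val h3
    exact Subtype.ext (h2 s s.2 c c.2 h4)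
  have h5 := Nat.card_congr (MulAction.selfEquivSigmaOrbitsQuotientStabilizer P A)
  have := Fintype.ofFinite (Quotient (MulAction.orbitRel P A))
  rw [h5, Nat.card_sigma]
  apply Finset.dvd_sum
  intro ω _
  rw [hstab, Nat.card_congr (QuotientGroup.quotientBot (G := P)).toEquiv]

end general

/-- One step of the induction: pass to the quotient of the normaliser of a solvable subgroup. -/
theorem quo_step {G : Type u} [Group G] [Finite G] {T : Subgroup G} [hTn : T.Normal] {x : G}
    {α : Type v} {f : G → α} (hf : Inv T x f)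
    (ih : ∀ (Q : Type u) [Group Q] [Finite Q] (T' : Subgroup Q) [T'.Normal],
      Nat.card T' < Nat.card T → ∀ (x' : Q) (f' : Q → α), Inv T' x' f' →
        ∀ c, x'⁻¹ * c ∈ T' → f' c = f' x')
    (P : Subgroup G) (hPT : P ≤ T) (hP : Group.IsSolvable P) (hP1 : P ≠ ⊥)
    (c : G) (hc : x⁻¹ * c ∈ T) (hcP : c ∈ normalizer (P : Set G))
    (t : G) (ht : t ∈ T) (htP : t ∈ normalizer (P : Set G)) : f (c * t) = f c := by
  classical
  obtain ⟨H, hH⟩ : ∃ H : Subgroup G, H = normalizer (P : Set G) := ⟨_, rfl⟩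
  rw [← hH] at hcP htP
  have hPH : P ≤ H := by rw [hH]; exact le_normalizer
  have hPn : (P.subgroupOf H).Normal := by
    subst hH
    exact normal_in_normalizer
  -- the quotient
  let π : H →* H ⧸ P.subgroupOf H := QuotientGroup.mk' (P.subgroupOf H)
  have hπ : Function.Surjective π := QuotientGroup.mk'_surjective _
  have hker : ∀ h : H, π h = 1 ↔ (h : G) ∈ P := by
    intro h
    rw [← MonoidHom.mem_ker, QuotientGroup.ker_mk', mem_subgroupOf]
  have hfP : ∀ h k : H, x⁻¹ * (h : G) ∈ T → π h = π k → f h = f k := by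
    intro h k hh hhk
    have h1 : π (h⁻¹ * k) = 1 := by rw [map_mul, map_inv, hhk, inv_mul_cancel]
    rw [hker] at h1
    have h2 := hf.step h hh P hPT hP
      (fun r hr => norm_mem (by rw [← hH]; exact h.2) hr) _ h1
    rw [← h2]
    congr 1
    simp
  let f' : H ⧸ P.subgroupOf H → α := fun q => f ((hπ q).choose : G)
  have hf' : ∀ h : H, x⁻¹ * (h : G) ∈ T → f' (π h) = f h := by
    intro h hh
    have h1 : π (hπ (π h)).choose = π h := (hπ (π h)).choose_spec
    exact (hfP h _ hh h1.symm).symm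
  let T' : Subgroup (H ⧸ P.subgroupOf H) := (T.subgroupOf H).map π
  have hT'n : T'.Normal := by
    have : (T.subgroupOf H).Normal := inferInstance
    exact this.map _ hπ
  have hcard : Nat.card T' < Nat.card T := by
    have h1 : Nat.card T' < Nat.card (T.subgroupOf H) := by
      have := Fintype.ofFinite T'
      have := Fintype.ofFinite (T.subgroupOf H)
      rw [Nat.card_eq_fintype_card, Nat.card_eq_fintype_card]
      refine Fintype.card_lt_of_surjective_not_injective (π.subgroupMap (T.subgroupOf H))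
        (π.subgroupMap_surjective _) ?_
      intro hinj
      apply hP1
      rw [eq_bot_iff]
      intro r hr
      rw [mem_bot]
      have h2 : π.subgroupMap (T.subgroupOf H) ⟨⟨r, hPH hr⟩, hPT hr⟩ =
          π.subgroupMap (T.subgroupOf H) 1 := by
        rw [map_one]
        apply Subtype.ext
        show π ⟨r, hPH hr⟩ = 1
        rw [hker]
        exact hr
      have h3 := hinj h2
      exact congrArg (fun a : T.subgroupOf H => ((a : H) : G)) h3
    refine lt_of_lt_of_le h1 ?_
    refine Nat.card_le_card_of_injective (fun a : T.subgroupOf H => (⟨((a : H) : G), a.2⟩ : T)) ?_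
    intro a b hab
    apply Subtype.ext
    apply Subtype.ext
    exact Subtype.mk.inj hab
  let ch : H := ⟨c, hcP⟩
  have hlift : ∀ q, (π ch)⁻¹ * q ∈ T' → ∃ h : H, x⁻¹ * (h : G) ∈ T ∧ π h = q := by
    rintro q ⟨s, hs, hsq⟩
    refine ⟨ch * s, ?_, by rw [map_mul, hsq, mul_inv_cancel_left]⟩
    have h1 : x⁻¹ * ((ch * s : H) : G) = (x⁻¹ * c) * (s : G) := by
      show x⁻¹ * (c * (s : G)) = _
      group
    rw [h1]
    exact T.mul_mem hc hs
  have hinv : Inv T' (π ch) f' := by
    refine ⟨?_, ?_⟩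
    · intro q hq t' ht'
      obtain ⟨h, hh, rfl⟩ := hlift q hq
      obtain ⟨s, hs, rfl⟩ := ht'
      have h1 : x⁻¹ * ((s * h * s⁻¹ : H) : G) ∈ T := by
        have h2 : x⁻¹ * ((s * h * s⁻¹ : H) : G) = (x⁻¹ * (s : G) * x) * (x⁻¹ * h) * (s : G)⁻¹ := by
          show x⁻¹ * ((s : G) * h * (s : G)⁻¹) = _
          group
        rw [h2]
        refine T.mul_mem (T.mul_mem ?_ hh) (T.inv_mem hs)
        simpa using hTn.conj_mem _ hs x⁻¹
      rw [← map_inv, ← map_mul, ← map_mul, hf' _ h1, hf' _ hh]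
      exact hf.conj h hh s hs
    · intro q hq R' hR'T hR' hR'n y hy
      obtain ⟨h, hh, rfl⟩ := hlift q hq
      let K : Subgroup H := R'.comap π
      have hKT : K.map H.subtype ≤ T := by
        rintro _ ⟨k, hk, rfl⟩
        obtain ⟨s, hs, hsk⟩ := hR'T hk
        have h1 : π (s⁻¹ * k) = 1 := by
          rw [map_mul, map_inv, hsk, inv_mul_cancel]
        rw [hker] at h1
        have h2 : (k : G) = s * ((s⁻¹ * k : H) : G) := by simp
        show (k : G) ∈ T
        rw [h2]
        exact T.mul_mem hs (hPT h1)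
      have hK : Group.IsSolvable K := by
        have hP' : Group.IsSolvable (P.subgroupOf H) :=
          Group.isSolvable_of_isSolvable_injective
            (f := (subgroupOfEquivOfLe hPH).toMonoidHom) (subgroupOfEquivOfLe hPH).injective
        have hle : P.subgroupOf H ≤ K := by
          intro k hk
          show π k ∈ R'
          rw [(hker k).2 hk]
          exact R'.one_mem
        refine Group.isSolvable_of_ker_le_range (inclusion hle) (π.subgroupComap R') ?_
        intro k hk
        rw [MonoidHom.mem_ker] at hk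
        have h1 : π k = 1 := congrArg Subtype.val hk
        rw [hker] at h1
        exact ⟨⟨k, h1⟩, Subtype.ext rfl⟩
      have hKs : Group.IsSolvable (K.map H.subtype) :=
        Group.isSolvable_of_surjective (H.subtype.subgroupMap_surjective K)
      obtain ⟨k, rfl⟩ := hπ y
      have hk : (k : G) ∈ K.map H.subtype := ⟨k, hy, rfl⟩
      have h1 := hf.step h hh (K.map H.subtype) hKT hKs (by
        rintro _ ⟨r, hr, rfl⟩
        refine ⟨h * r * h⁻¹, ?_, rfl⟩
        show π (h * r * h⁻¹) ∈ R'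
        rw [map_mul, map_mul, map_inv]
        exact hR'n _ hr) k hk
      have h2 : x⁻¹ * ((h * k : H) : G) ∈ T := by
        have h3 : x⁻¹ * ((h * k : H) : G) = (x⁻¹ * h) * k := by
          show x⁻¹ * ((h : G) * k) = _
          group
        rw [h3]
        exact T.mul_mem hh (hKT hk)
      rw [← map_mul, hf' _ h2, hf' _ hh]
      exact h1
  have h1 := ih (H ⧸ P.subgroupOf H) T' hcard (π ch) f' hinv (π (ch * ⟨t, htP⟩)) (by
    rw [map_mul, inv_mul_cancel_left]
    exact ⟨⟨t, htP⟩, ht, rfl⟩)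
  have h2 : x⁻¹ * ((ch * ⟨t, htP⟩ : H) : G) ∈ T := by
    have h3 : x⁻¹ * ((ch * ⟨t, htP⟩ : H) : G) = (x⁻¹ * c) * t := by
      show x⁻¹ * (c * t) = _
      group
    rw [h3]
    exact T.mul_mem hc ht
  rw [hf' _ h2, hf' ch hc] at h1
  exact h1

theorem solvable_of_card {G : Type u} [Group G] [Finite G] {p n : ℕ} [Fact p.Prime]
    {P : Subgroup G} (hP : Nat.card P = p ^ n) : Group.IsSolvable P := by
  have h1 : IsPGroup p P := IsPGroup.of_card hP
  have h2 := h1.isNilpotent
  infer_instance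

theorem ne_bot_of_card {G : Type u} [Group G] [Finite G] {p n : ℕ} [hp : Fact p.Prime]
    {P : Subgroup G} (hP : Nat.card P = p ^ (n + 1)) : P ≠ ⊥ := by
  rintro rfl
  rw [card_bot] at hP
  have h1 : 1 < p ^ (n + 1) := Nat.one_lt_pow (by omega) hp.out.one_lt
  omega

/-- The value at the elements which normalise a nontrivial `p`-subgroup. -/
theorem sylow_value {G : Type u} [Group G] [Finite G] {T : Subgroup G} [hTn : T.Normal] {x : G}
    {α : Type v} {f : G → α} (hf : Inv T x f)
    (ih : ∀ (Q : Type u) [Group Q] [Finite Q] (T' : Subgroup Q) [T'.Normal],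
      Nat.card T' < Nat.card T → ∀ (x' : Q) (f' : Q → α), Inv T' x' f' →
        ∀ c, x'⁻¹ * c ∈ T' → f' c = f' x')
    (p : ℕ) [hp : Fact p.Prime] (hpT : p ∣ Nat.card T) :
    ∃ c₀, x⁻¹ * c₀ ∈ T ∧ ∀ (d n : ℕ) (P : Subgroup G), (Nat.card T).factorization p ≤ n + 1 + d →
      P ≤ T → Nat.card P = p ^ (n + 1) → ∀ c, x⁻¹ * c ∈ T → c ∈ normalizer (P : Set G) →
        f c = f c₀ := by
  classical
  obtain ⟨a, ha⟩ : ∃ a, (Nat.card T).factorization p = a + 1 := by
    have h1 : 0 < (Nat.card T).factorization p :=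
      hp.out.factorization_pos_of_dvd Nat.card_pos.ne' hpT
    exact ⟨(Nat.card T).factorization p - 1, by omega⟩
  let S₀ : Sylow p T := default
  obtain ⟨P₀, hP₀⟩ : ∃ P₀ : Subgroup G, P₀ = (S₀ : Subgroup T).map T.subtype := ⟨_, rfl⟩
  have hP₀T : P₀ ≤ T := by
    rw [hP₀]
    rintro _ ⟨s, _, rfl⟩
    exact s.2
  have hP₀c : Nat.card P₀ = p ^ (a + 1) := by
    rw [hP₀, ← ha, ← S₀.card_eq_multiplicity]
    exact (Nat.card_congr ((S₀ : Subgroup T).equivMapOfInjective T.subtype
      T.subtype_injective).toEquiv).symm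
  have hnorm : ∀ g k : G, k ∈ T → g * k * g⁻¹ ∈ T := fun g k hk => hTn.conj_mem k hk g
  obtain ⟨m, hm, hmx⟩ := frat S₀ x (hnorm x)
  rw [← hP₀] at hmx
  have hc₀ : x⁻¹ * (m * x) ∈ T := by
    have := hnorm x⁻¹ m hm
    rwa [inv_inv, mul_assoc] at this
  refine ⟨m * x, hc₀, ?_⟩
  intro d
  induction d using Nat.strong_induction_on with
  | _ d ihd =>
    intro n P hd hPT hPc c hc hcP
    have hle : n + 1 ≤ a + 1 := by
      have h1 : p ^ (n + 1) ∣ Nat.card T := by
        rw [← hPc]
        exact card_dvd_of_le hPT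
      have h2 := (hp.out.pow_dvd_iff_le_factorization Nat.card_pos.ne').1 h1
      omega
    rcases hle.lt_or_eq with hlt | heq
    · -- climb
      have h1 : p ^ (n + 1 + 1) ∣ Nat.card T := by
        rw [hp.out.pow_dvd_iff_le_factorization Nat.card_pos.ne']
        omega
      have h2 : Nat.card (P.subgroupOf T) = p ^ (n + 1) := by
        rw [← hPc]
        exact Nat.card_congr (subgroupOfEquivOfLe hPT).toEquiv
      have h3 := Sylow.prime_pow_dvd_card_normalizer h1 h2
      obtain ⟨K, hK⟩ : ∃ K : Subgroup G,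
        K = (normalizer ((P.subgroupOf T : Subgroup T) : Set T)).map T.subtype := ⟨_, rfl⟩
      have hKc : p ^ (n + 2) ∣ Nat.card K := by
        rw [hK, Nat.card_congr ((normalizer ((P.subgroupOf T : Subgroup T) : Set T)).equivMapOfInjective
          T.subtype T.subtype_injective).toEquiv.symm]
        exact h3
      have hKT : K ≤ T := by
        rw [hK]
        rintro _ ⟨s, _, rfl⟩
        exact s.2
      have hKP : ∀ k ∈ K, k ∈ normalizer (P : Set G) := by
        rw [hK]
        rintro _ ⟨s, hs, rfl⟩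
        apply mem_norm
        intro r hr
        exact norm_mem (P := P.subgroupOf T) hs (r := ⟨r, hPT hr⟩) hr
      have hmemK : ∀ k ∈ T, k ∈ normalizer (P : Set G) → k ∈ K := by
        intro k hk hkP
        rw [hK]
        refine ⟨⟨k, hk⟩, ?_, rfl⟩
        apply mem_norm
        intro r hr
        exact norm_mem hkP hr
      have hcK : ∀ k ∈ K, c * k * c⁻¹ ∈ K := fun k hk =>
        hmemK _ (hnorm c k (hKT hk))
          (mul_mem (mul_mem hcP (hKP k hk)) (inv_mem hcP))
      let S₁ : Sylow p K := default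
      obtain ⟨P₁, hP₁⟩ : ∃ P₁ : Subgroup G, P₁ = (S₁ : Subgroup K).map K.subtype := ⟨_, rfl⟩
      have hP₁T : P₁ ≤ T := by
        rw [hP₁]
        rintro _ ⟨s, _, rfl⟩
        exact hKT s.2
      have hb : n + 2 ≤ (Nat.card K).factorization p :=
        (hp.out.pow_dvd_iff_le_factorization Nat.card_pos.ne').1 hKc
      obtain ⟨b, hb'⟩ : ∃ b, (Nat.card K).factorization p = b + 1 :=
        ⟨(Nat.card K).factorization p - 1, by omega⟩
      have hP₁c : Nat.card P₁ = p ^ (b + 1) := by
        rw [hP₁, ← hb', ← S₁.card_eq_multiplicity]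
        exact (Nat.card_congr ((S₁ : Subgroup K).equivMapOfInjective K.subtype
          K.subtype_injective).toEquiv).symm
      obtain ⟨k, hk, hkc⟩ := frat S₁ c hcK
      rw [← hP₁] at hkc
      have h4 : c⁻¹ * k * c ∈ T := by
        have := hnorm c⁻¹ k (hKT hk)
        rwa [inv_inv] at this
      have h5 : c⁻¹ * k * c ∈ normalizer (P : Set G) :=
        mul_mem (mul_mem (inv_mem hcP) (hKP k hk)) hcP
      have h6 := quo_step hf ih P hPT (solvable_of_card hPc) (ne_bot_of_card hPc) c hc hcP _ h4 h5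
      have h7 : c * (c⁻¹ * k * c) = k * c := by group
      rw [h7] at h6
      have h8 : x⁻¹ * (k * c) ∈ T := by
        have h9 : x⁻¹ * (k * c) = (x⁻¹ * c) * (c⁻¹ * k * c) := by group
        rw [h9]
        exact T.mul_mem hc h4
      rw [← h6]
      exact ihd (d - 1) (by omega) b P₁ (by omega) hP₁T hP₁c (k * c) h8 (mem_norm hkc)
    · -- a Sylow subgroup
      have h1 : Nat.card (P.subgroupOf T) = p ^ (Nat.card T).factorization p := by
        rw [ha, ← heq, ← hPc]
        exact Nat.card_congr (subgroupOfEquivOfLe hPT).toEquiv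
      obtain ⟨t, ht⟩ := MulAction.exists_smul_eq T (Sylow.ofCard (P.subgroupOf T) h1) S₀
      have h2 : ∀ s : T, s ∈ (S₀ : Subgroup T) ↔ (t⁻¹ * s * t : T) ∈ P.subgroupOf T := by
        intro s
        have h3 : ((t • Sylow.ofCard (P.subgroupOf T) h1 : Sylow p T) : Subgroup T) = S₀ := by
          rw [ht]
        rw [← h3, Sylow.coe_subgroup_smul, Sylow.coe_ofCard]
        have h4 : s = MulAut.conj t • (t⁻¹ * s * t) := by
          simp [MulAut.smul_def, MulAut.conj_apply, mul_assoc]
        conv_lhs => rw [h4]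
        rw [Subgroup.smul_mem_pointwise_smul_iff]
      have hP₀m : ∀ g : G, g ∈ P₀ ↔ (t : G)⁻¹ * g * t ∈ P := by
        intro g
        rw [hP₀]
        constructor
        · rintro ⟨s, hs, rfl⟩
          exact (h2 s).1 hs
        · intro hg
          have hgT : g ∈ T := by
            have h5 := hnorm (t : G) _ (hPT hg)
            have h6 : (t : G) * ((t : G)⁻¹ * g * t) * (t : G)⁻¹ = g := by group
            rwa [h6] at h5
          exact ⟨⟨g, hgT⟩, (h2 ⟨g, hgT⟩).2 hg, rfl⟩
      have h3 : f ((t : G) * c * (t : G)⁻¹) = f c := hf.conj c hc t t.2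
      have h4 : (t : G) * c * (t : G)⁻¹ ∈ normalizer (P₀ : Set G) := by
        apply mem_norm
        intro r hr
        rw [hP₀m] at hr ⊢
        have h5 : (t : G)⁻¹ * ((t : G) * c * (t : G)⁻¹ * r * ((t : G) * c * (t : G)⁻¹)⁻¹) * t =
            c * ((t : G)⁻¹ * r * t) * c⁻¹ := by group
        rw [h5]
        exact norm_mem hcP hr
      have h5 : m * x ∈ normalizer (P₀ : Set G) := mem_norm hmx
      have h6 : (m * x)⁻¹ * ((t : G) * c * (t : G)⁻¹) ∈ T := by
        have h7 : (m * x)⁻¹ * ((t : G) * c * (t : G)⁻¹) =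
            (x⁻¹ * m⁻¹ * x) * (x⁻¹ * t * x) * (x⁻¹ * c) * (t : G)⁻¹ := by group
        rw [h7]
        refine T.mul_mem (T.mul_mem (T.mul_mem ?_ ?_) hc) (T.inv_mem t.2)
        · have := hnorm x⁻¹ m⁻¹ (T.inv_mem hm)
          rwa [inv_inv] at this
        · have := hnorm x⁻¹ t t.2
          rwa [inv_inv] at this
      have h7 := quo_step hf ih P₀ hP₀T (solvable_of_card hP₀c) (ne_bot_of_card hP₀c) (m * x) hc₀ h5
        _ h6 (mul_mem (inv_mem h5) h4)
      rw [mul_inv_cancel_left, h3] at h7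
      exact h7

/-- **CONN**: a function with the two invariances is constant on the coset. -/
theorem conn_aux (k : ℕ) : ∀ (G : Type u) [Group G] [Finite G] (T : Subgroup G) [T.Normal],
    Nat.card T < k → ∀ (α : Type v) (x : G) (f : G → α), Inv T x f →
      ∀ c, x⁻¹ * c ∈ T → f c = f x := by
  classical
  induction k with
  | zero =>
    intro G _ _ T _ hk
    exact absurd hk (Nat.not_lt_zero _)
  | succ k ihk =>
    intro G _ _ T hTn hk α x f hf c₁ hc₁
    have ih : ∀ (Q : Type u) [Group Q] [Finite Q] (T' : Subgroup Q) [T'.Normal],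
        Nat.card T' < Nat.card T → ∀ (x' : Q) (f' : Q → α), Inv T' x' f' →
          ∀ c, x'⁻¹ * c ∈ T' → f' c = f' x' := by
      intro Q _ _ T' _ hT' x' f' hf' c hc
      exact ihk Q T' (by omega) α x' f' hf' c hc
    by_contra hne
    -- the fibre of `x`
    let X : Set G := {c | x⁻¹ * c ∈ T}
    let F : Set G := {c | x⁻¹ * c ∈ T ∧ f c = f x}
    have hX : Nat.card X = Nat.card T := by
      refine Nat.card_congr ⟨fun c => ⟨x⁻¹ * c, c.2⟩, fun t => ⟨x * t, ?_⟩, ?_, ?_⟩
      · show x⁻¹ * (x * (t : G)) ∈ T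
        rw [inv_mul_cancel_left]
        exact t.2
      · intro c
        apply Subtype.ext
        simp
      · intro t
        apply Subtype.ext
        simp
    let F' : Set G := {c | x⁻¹ * c ∈ T ∧ f c ≠ f x}
    have hXF : X.ncard = F.ncard + F'.ncard := by
      rw [← Set.ncard_union_eq _ (Set.toFinite _) (Set.toFinite _)]
      · congr 1
        ext c
        constructor
        · intro hc
          by_cases h : f c = f x
          · exact Or.inl ⟨hc, h⟩
          · exact Or.inr ⟨hc, h⟩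
        · rintro (h | h)
          · exact h.1
          · exact h.1
      · rw [Set.disjoint_left]
        rintro c ⟨_, h⟩ ⟨_, h'⟩
        exact h' h
    have hF0 : 0 < F.ncard := by
      rw [Set.ncard_pos]
      exact ⟨x, by
        show x⁻¹ * x ∈ T ∧ f x = f x
        rw [inv_mul_cancel]
        exact ⟨T.one_mem, rfl⟩⟩
    have hF'0 : 0 < F'.ncard := by
      rw [Set.ncard_pos]
      exact ⟨c₁, hc₁, hne⟩
    rw [Nat.card_coe_set_eq] at hX
    have hdvd : Nat.card T ∣ F.ncard := by
      rw [Nat.dvd_iff_prime_pow_dvd_dvd]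
      intro p j hp hj
      have hpf : Fact p.Prime := ⟨hp⟩
      rcases Nat.eq_zero_or_pos j with rfl | hj0
      · rw [pow_zero]
        exact one_dvd _
      have hpT : p ∣ Nat.card T := (dvd_pow_self p hj0.ne').trans hj
      obtain ⟨c₀, hc₀, hval⟩ := sylow_value hf ih p hpT
      let S₀ : Sylow p T := default
      obtain ⟨P₀, hP₀⟩ : ∃ P₀ : Subgroup G, P₀ = (S₀ : Subgroup T).map T.subtype := ⟨_, rfl⟩
      have hP₀T : P₀ ≤ T := by
        rw [hP₀]
        rintro _ ⟨s, _, rfl⟩
        exact s.2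
      have hP₀c : Nat.card P₀ = p ^ (Nat.card T).factorization p := by
        rw [hP₀, ← S₀.card_eq_multiplicity]
        exact (Nat.card_congr ((S₀ : Subgroup T).equivMapOfInjective T.subtype
          T.subtype_injective).toEquiv).symm
      have hjP : p ^ j ∣ Nat.card P₀ := by
        rw [hP₀c]
        exact pow_dvd_pow p ((hp.pow_dvd_iff_le_factorization Nat.card_pos.ne').1 hj)
      have hP₀p : IsPGroup p P₀ := IsPGroup.of_card hP₀c
      -- a Sylow subgroup acts freely where `f ≠ f c₀`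
      have hfree : ∀ A : Set G, (∀ c ∈ A, x⁻¹ * c ∈ T) → (∀ c ∈ A, f c ≠ f c₀) →
          (∀ c ∈ A, ∀ s ∈ P₀, s * c * s⁻¹ ∈ A) → p ^ j ∣ A.ncard := by
        intro A hA1 hA2 hA3
        rw [← Nat.card_coe_set_eq]
        refine hjP.trans (free_dvd P₀ A (fun s hs c hc => hA3 c hc s hs) ?_)
        intro s hs c hc hsc
        by_contra hs1
        have h1 : c * s * c⁻¹ = s := by
          have h2 : s * c = c * s := mul_inv_eq_iff_eq_mul.1 hsc
          rw [← h2, mul_inv_cancel_right]
        have hzp : IsPGroup p (zpowers s) := hP₀p.to_le (zpowers_le.2 hs)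
        obtain ⟨n, hn⟩ := IsPGroup.iff_card.1 hzp
        obtain ⟨n', rfl⟩ : ∃ n', n = n' + 1 := by
          refine ⟨n - 1, ?_⟩
          have : n ≠ 0 := by
            rintro rfl
            rw [pow_zero, card_eq_one, zpowers_eq_bot] at hn
            exact hs1 hn
          omega
        refine hA2 c hc (hval _ n' (zpowers s) (Nat.le_add_left _ _)
          (zpowers_le.2 (hP₀T hs)) hn c (hA1 c hc) (mem_norm ?_))
        rintro _ ⟨i, rfl⟩
        refine ⟨i, ?_⟩
        have h3 : c * s ^ i * c⁻¹ = (c * s * c⁻¹) ^ i := (conj_zpow).symm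
        show s ^ i = c * s ^ i * c⁻¹
        rw [h3, h1]
      have hconjT : ∀ c s : G, x⁻¹ * c ∈ T → s ∈ T → x⁻¹ * (s * c * s⁻¹) ∈ T := by
        intro c s hc hs
        have h1 : x⁻¹ * (s * c * s⁻¹) = (x⁻¹ * s * x) * (x⁻¹ * c) * s⁻¹ := by group
        rw [h1]
        refine T.mul_mem (T.mul_mem ?_ hc) (T.inv_mem hs)
        simpa using hTn.conj_mem s hs x⁻¹
      by_cases hv : f c₀ = f x
      · have h1 : p ^ j ∣ F'.ncard := by
          refine hfree F' (fun c hc => hc.1) (fun c hc => by rw [hv]; exact hc.2) ?_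
          intro c hc s hs
          refine ⟨hconjT c s hc.1 (hP₀T hs), ?_⟩
          rw [hf.conj c hc.1 s (hP₀T hs)]
          exact hc.2
        have h2 : p ^ j ∣ F.ncard + F'.ncard := by
          rw [← hXF, hX]
          exact hj
        exact (Nat.dvd_add_left h1).1 h2
      · refine hfree F (fun c hc => hc.1) (fun c hc => by rw [hc.2]; exact fun h => hv h.symm) ?_
        intro c hc s hs
        refine ⟨hconjT c s hc.1 (hP₀T hs), ?_⟩
        rw [hf.conj c hc.1 s (hP₀T hs)]
        exact hc.2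
    have hlt : F.ncard < Nat.card T := by omega
    exact absurd (Nat.le_of_dvd hF0 hdvd) (by omega)

/-- **CONN**. -/
theorem conn {G : Type u} [Group G] [Finite G] (T : Subgroup G) [T.Normal] {α : Type v} (x : G)
    (f : G → α) (hf : Inv T x f) (c : G) (hc : x⁻¹ * c ∈ T) : f c = f x :=
  conn_aux (Nat.card T + 1) G T (Nat.lt_succ_self _) α x f hf c hc

/-- **CONN, quantitative form**: steps of size at most `δ`. -/
theorem conn_bd {G : Type u} [Group G] [Finite G] (N : Subgroup G) [hN : N.Normal] (x : G)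
    (F : G → ℂ) (δ : ℝ) (hδ : 0 ≤ δ)
    (h1 : ∀ u ∈ N, ∀ g, x⁻¹ * g ∈ N → F (u * g * u⁻¹) = F g)
    (h2 : ∀ R : Subgroup G, R ≤ N → Group.IsSolvable R → ∀ y, x⁻¹ * y ∈ N →
      (∀ r, r ∈ R ↔ y * r * y⁻¹ ∈ R) → ∀ r ∈ R, ‖F (y * r) - F y‖ ≤ δ)
    (t : G) (ht : t ∈ N) : ‖F (x * t) - F x‖ ≤ Nat.card N * δ := by
  classical
  let V := {g : G // x⁻¹ * g ∈ N}
  let R0 : V → V → Prop := fun a b => (∃ u ∈ N, (b : G) = u * a * u⁻¹) ∨
    ∃ R : Subgroup G, R ≤ N ∧ Group.IsSolvable R ∧ (∀ r, r ∈ R ↔ (a : G) * r * (a : G)⁻¹ ∈ R) ∧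
      ∃ r ∈ R, (b : G) = a * r
  let Γ : SimpleGraph V := SimpleGraph.fromRel R0
  have hR0 : ∀ a b : V, R0 a b → ‖F b - F a‖ ≤ δ := by
    rintro a b (⟨u, hu, hb⟩ | ⟨R, hRN, hR, hRa, r, hr, hb⟩)
    · rw [hb, h1 u hu a a.2, sub_self, norm_zero]
      exact hδ
    · rw [hb]
      exact h2 R hRN hR a a.2 hRa r hr
  have hadj : ∀ a b : V, Γ.Adj a b → ‖F b - F a‖ ≤ δ := by
    rintro a b ⟨_, h | h⟩
    · exact hR0 a b h
    · rw [norm_sub_rev]
      exact hR0 b a h
  have hwalk : ∀ (a b : V) (w : Γ.Walk a b), ‖F b - F a‖ ≤ w.length * δ := by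
    intro a b w
    induction w with
    | nil => simp
    | @cons a b c h w ih =>
      have h3 := hadj a b h
      have h4 : F c - F a = (F c - F b) + (F b - F a) := by ring
      rw [h4, SimpleGraph.Walk.length_cons]
      push_cast
      refine (norm_add_le _ _).trans ?_
      linarith
  have hreach : ∀ a b : V, R0 a b → Γ.connectedComponentMk a = Γ.connectedComponentMk b := by
    intro a b h
    by_cases hab : a = b
    · rw [hab]
    · exact SimpleGraph.ConnectedComponent.sound
        (SimpleGraph.Adj.reachable ((SimpleGraph.fromRel_adj R0 a b).2 ⟨hab, Or.inl h⟩))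
  have hx : x⁻¹ * x ∈ N := by rw [inv_mul_cancel]; exact N.one_mem
  let f : G → Γ.ConnectedComponent := fun g =>
    if h : x⁻¹ * g ∈ N then Γ.connectedComponentMk ⟨g, h⟩ else Γ.connectedComponentMk ⟨x, hx⟩
  have hf : Inv N x f := by
    refine ⟨?_, ?_⟩
    · intro c hc u hu
      have hc' : x⁻¹ * (u * c * u⁻¹) ∈ N := by
        have h3 : x⁻¹ * (u * c * u⁻¹) = (x⁻¹ * u * x) * (x⁻¹ * c) * u⁻¹ := by group
        rw [h3]
        refine N.mul_mem (N.mul_mem ?_ hc) (N.inv_mem hu)
        simpa using hN.conj_mem u hu x⁻¹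
      show (if h : x⁻¹ * (u * c * u⁻¹) ∈ N then Γ.connectedComponentMk ⟨u * c * u⁻¹, h⟩
        else Γ.connectedComponentMk ⟨x, hx⟩) = if h : x⁻¹ * c ∈ N then Γ.connectedComponentMk ⟨c, h⟩
          else Γ.connectedComponentMk ⟨x, hx⟩
      rw [dif_pos hc, dif_pos hc']
      exact (hreach ⟨c, hc⟩ ⟨u * c * u⁻¹, hc'⟩ (Or.inl ⟨u, hu, rfl⟩)).symm
    · intro c hc R hRN hR hRc y hy
      have hc' : x⁻¹ * (c * y) ∈ N := by
        rw [← mul_assoc]
        exact N.mul_mem hc (hRN hy)
      show (if h : x⁻¹ * (c * y) ∈ N then Γ.connectedComponentMk ⟨c * y, h⟩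
        else Γ.connectedComponentMk ⟨x, hx⟩) = if h : x⁻¹ * c ∈ N then Γ.connectedComponentMk ⟨c, h⟩
          else Γ.connectedComponentMk ⟨x, hx⟩
      rw [dif_pos hc, dif_pos hc']
      exact (hreach ⟨c, hc⟩ ⟨c * y, hc'⟩
        (Or.inr ⟨R, hRN, hR, mem_normalizer_iff.1 (mem_norm hRc), y, hy, rfl⟩)).symm
  have ht' : x⁻¹ * (x * t) ∈ N := by rw [inv_mul_cancel_left]; exact ht
  have h3 := conn N x f hf (x * t) ht'
  have h4 : Γ.connectedComponentMk ⟨x * t, ht'⟩ = Γ.connectedComponentMk ⟨x, hx⟩ := by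
    have h5 : f (x * t) = Γ.connectedComponentMk ⟨x * t, ht'⟩ := dif_pos ht'
    have h6 : f x = Γ.connectedComponentMk ⟨x, hx⟩ := dif_pos hx
    rw [← h5, ← h6, h3]
  have h5 : Γ.Reachable ⟨x, hx⟩ ⟨x * t, ht'⟩ := SimpleGraph.ConnectedComponent.exact h4.symm
  obtain ⟨w, hw⟩ := h5.exists_isPath
  have := Fintype.ofFinite V
  have h6 : w.length < Fintype.card V := hw.length_lt
  have h7 : Fintype.card V = Nat.card N := by
    rw [← Nat.card_eq_fintype_card]
    refine Nat.card_congr ⟨fun c => ⟨x⁻¹ * c, c.2⟩, fun s => ⟨x * s, ?_⟩, ?_, ?_⟩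
    · show x⁻¹ * (x * (s : G)) ∈ N
      rw [inv_mul_cancel_left]
      exact s.2
    · intro c
      apply Subtype.ext
      simp
    · intro s
      apply Subtype.ext
      simp
  have h8 := hwalk _ _ w
  refine h8.trans (mul_le_mul_of_nonneg_right ?_ hδ)
  rw [← h7]
  exact_mod_cast h6.le

end Pool.Agent.Helper64.BP
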