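import Pool.Agent.Helper64.BP.Conn
import Pool.Agent.Helper45.BP.Defs

/-! Block B1 of BOUNDED POLES in helper45's form. -/

set_option autoImplicit false

namespace Pool.Agent.Helper64.BP

open Subgroup

theorem connThm : Pool.Agent.Helper45.BP.ConnThm := by
  intro G _ _ N _ x α f h1 h2 t ht
  refine conn N x f ⟨fun c hc u hu => h1 u hu c hc, ?_⟩ (x * t) (by
    rw [inv_mul_cancel_left]; exact ht)
  intro c hc R hRN hR hRc y hy
  exact h2 R hRN hR c hc (mem_normalizer_iff.1 (mem_norm hRc)) y hy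

theorem connBd : Pool.Agent.Helper45.BP.ConnBd :=
  fun _ _ _ N _ x F δ hδ h1 h2 t ht => conn_bd N x F δ hδ h1 h2 t ht

end Pool.Agent.Helper64.BP
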